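import Pool.Agent.V5helper19.QC.Stm

/-! Project QC, job D3: the third logarithmic derivative near the real axis. -/

set_option autoImplicit false
open Finset

namespace V5helper4.QC

open V5helper19.QC

theorem t_D3 (h1 : S_H3A) (h2 : S_H3B) : S_D3 := by
  obtain ⟨A, hA, h1⟩ := h1
  obtain ⟨B, hB, h2⟩ := h2
  refine ⟨16 * B + 4 * A, by positivity, fun n α θ hn hα hθ => ?_⟩
  set z : ℂ := zz α θ with hz
  have hre : z.re = α := by rw [hz]; unfold zz; simp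
  have him : z.im = θ := by rw [hz]; unfold zz; simp
  have hz0 : z ≠ 0 := by
    intro h
    rw [h, Complex.zero_re] at hre
    exact hα.ne hre
  have hzpos : 0 < ‖z‖ := norm_pos_iff.2 hz0
  have hz3 : 0 < ‖z‖ ^ 3 := pow_pos hzpos 3
  have hn2 : (2 : ℝ) ≤ n := by exact_mod_cast hn
  have hn0 : (0 : ℝ) < n := by linarith
  have hterm : ∀ j : ℕ, ‖z‖ ^ 3 * ‖((n + j : ℕ) : ℂ) ^ 3 * e2 (((n + j : ℕ) : ℂ) * z) -
      (j : ℂ) ^ 3 * e2 ((j : ℂ) * z)‖ =
      ‖(((n + j : ℕ) : ℂ) * z) ^ 3 * e2 (((n + j : ℕ) : ℂ) * z) - ((j : ℂ) * z) ^ 3 * e2 ((j : ℂ) * z)‖ := by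
    intro j
    rw [← norm_pow, ← norm_mul]
    congr 1
    ring
  have hcard : ((Icc 2 n).card : ℝ) ≤ n := by
    rw [Nat.card_Icc]
    have : n + 1 - 2 ≤ n := by omega
    exact_mod_cast this
  rcases le_or_gt (α * n) 1 with h | h
  · have hNN : NN n α = n := min_eq_left (by rw [le_div_iff₀ hα]; linarith)
    rw [hNN] at hθ ⊢
    have hαn : α ≤ 1 / n := by rw [le_div_iff₀ hn0]; exact h
    have hznorm : ‖z‖ ≤ (5 / 4) / n := by
      calc ‖z‖ ≤ |z.re| + |z.im| := Complex.norm_le_abs_re_add_abs_im z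
        _ ≤ 1 / n + (1 / 4) / n := by
            rw [hre, him, abs_of_pos hα]
            exact add_le_add hαn hθ
        _ = (5 / 4) / n := by ring
    have hm : ∀ m : ℕ, 1 ≤ m → m ≤ 2 * n → ‖((m : ℂ) * z) ^ 3 * e2 ((m : ℂ) * z) - 2‖ ≤
        8 * B * n ^ 3 * ‖z‖ ^ 3 := by
      intro m hm1 hm2
      have hm0 : (m : ℂ) ≠ 0 := by exact_mod_cast (by omega : m ≠ 0)
      have hmr : (m : ℝ) ≤ 2 * n := by exact_mod_cast hm2
      have hnm : ‖(m : ℂ) * z‖ ≤ 2 * n * ‖z‖ := by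
        rw [norm_mul, Complex.norm_natCast]
        exact mul_le_mul_of_nonneg_right hmr hzpos.le
      have h3 : ‖(m : ℂ) * z‖ ≤ 3 := by
        calc ‖(m : ℂ) * z‖ ≤ 2 * n * ‖z‖ := hnm
          _ ≤ 2 * n * ((5 / 4) / n) := mul_le_mul_of_nonneg_left hznorm (by positivity)
          _ = 5 / 2 := by field_simp; norm_num
          _ ≤ 3 := by norm_num
      calc _ ≤ B * ‖(m : ℂ) * z‖ ^ 3 := h2 _ (mul_ne_zero hm0 hz0) h3
        _ ≤ B * (2 * n * ‖z‖) ^ 3 := by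
            apply mul_le_mul_of_nonneg_left _ hB.le
            exact pow_le_pow_left₀ (norm_nonneg _) hnm 3
        _ = 8 * B * n ^ 3 * ‖z‖ ^ 3 := by ring
    have hj : ∀ j ∈ Icc 2 n, ‖((n + j : ℕ) : ℂ) ^ 3 * e2 (((n + j : ℕ) : ℂ) * z) -
        (j : ℂ) ^ 3 * e2 ((j : ℂ) * z)‖ ≤ 16 * B * n ^ 3 := by
      intro j hj
      rw [mem_Icc] at hj
      have e1 := hm (n + j) (by omega) (by omega)
      have e2' := hm j (by omega) (by omega)
      have e3 : ‖z‖ ^ 3 * ‖((n + j : ℕ) : ℂ) ^ 3 * e2 (((n + j : ℕ) : ℂ) * z) -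
          (j : ℂ) ^ 3 * e2 ((j : ℂ) * z)‖ ≤ ‖z‖ ^ 3 * (16 * B * n ^ 3) := by
        rw [hterm]
        calc _ = ‖((((n + j : ℕ) : ℂ) * z) ^ 3 * e2 (((n + j : ℕ) : ℂ) * z) - 2) -
              (((j : ℂ) * z) ^ 3 * e2 ((j : ℂ) * z) - 2)‖ := by congr 1; ring
          _ ≤ _ := (norm_sub_le _ _).trans (add_le_add e1 e2')
          _ = _ := by ring
      exact le_of_mul_le_mul_left e3 hz3
    unfold LD3
    calc _ ≤ ∑ j ∈ Icc 2 n, ‖((n + j : ℕ) : ℂ) ^ 3 * e2 (((n + j : ℕ) : ℂ) * z) -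
          (j : ℂ) ^ 3 * e2 ((j : ℂ) * z)‖ := norm_sum_le _ _
      _ ≤ ∑ _j ∈ Icc 2 n, 16 * B * (n : ℝ) ^ 3 := sum_le_sum hj
      _ = (Icc 2 n).card * (16 * B * (n : ℝ) ^ 3) := by rw [sum_const, nsmul_eq_mul]
      _ ≤ n * (16 * B * (n : ℝ) ^ 3) := mul_le_mul_of_nonneg_right hcard (by positivity)
      _ ≤ (16 * B + 4 * A) * (n : ℝ) ^ 4 := by
          have : 0 ≤ 4 * A * (n : ℝ) ^ 4 := by positivity
          nlinarith
  · have hNN : NN n α = 1 / α := min_eq_right (by rw [div_le_iff₀ hα]; linarith)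
    rw [hNN] at hθ ⊢
    have hθ' : |θ| ≤ α / 4 := by
      calc |θ| ≤ 1 / 4 / (1 / α) := hθ
        _ = α / 4 := by field_simp
    have hzα : α ≤ ‖z‖ := by
      have := Complex.abs_re_le_norm z
      rwa [hre, abs_of_pos hα] at this
    have hm : ∀ m : ℕ, 1 ≤ m → ‖((m : ℂ) * z) ^ 3 * e2 ((m : ℂ) * z)‖ ≤ A * Real.exp (-(m * α / 2)) := by
      intro m hm1
      have hm0 : (0 : ℝ) < m := by exact_mod_cast hm1
      have r1 : ((m : ℂ) * z).re = m * α := by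
        rw [← Complex.ofReal_natCast, Complex.re_ofReal_mul, hre]
      have r2 : ((m : ℂ) * z).im = m * θ := by
        rw [← Complex.ofReal_natCast, Complex.im_ofReal_mul, him]
      have := h1 ((m : ℂ) * z) (by rw [r1]; positivity) (by
        rw [r1, r2, abs_mul, abs_of_pos hm0]
        apply mul_le_mul_of_nonneg_left _ hm0.le
        linarith)
      rwa [r1] at this
    have hj : ∀ j ∈ Icc 2 n, ‖((n + j : ℕ) : ℂ) ^ 3 * e2 (((n + j : ℕ) : ℂ) * z) -
        (j : ℂ) ^ 3 * e2 ((j : ℂ) * z)‖ ≤ 2 * A / α ^ 3 * Real.exp (-(j * α / 2)) := by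
      intro j hj
      rw [mem_Icc] at hj
      have e1 := hm (n + j) (by omega)
      have e2' := hm j (by omega)
      have e4 : Real.exp (-(((n + j : ℕ) : ℝ) * α / 2)) ≤ Real.exp (-(j * α / 2)) := by
        apply Real.exp_le_exp.2
        push_cast
        nlinarith
      have e3 : ‖z‖ ^ 3 * ‖((n + j : ℕ) : ℂ) ^ 3 * e2 (((n + j : ℕ) : ℂ) * z) -
          (j : ℂ) ^ 3 * e2 ((j : ℂ) * z)‖ ≤ 2 * A * Real.exp (-(j * α / 2)) := by
        rw [hterm]
        calc _ ≤ _ := (norm_sub_le _ _).trans (add_le_add e1 e2')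
          _ ≤ A * Real.exp (-(j * α / 2)) + A * Real.exp (-(j * α / 2)) :=
              add_le_add (mul_le_mul_of_nonneg_left e4 hA.le) le_rfl
          _ = _ := by ring
      have e5 : α ^ 3 * ‖((n + j : ℕ) : ℂ) ^ 3 * e2 (((n + j : ℕ) : ℂ) * z) -
          (j : ℂ) ^ 3 * e2 ((j : ℂ) * z)‖ ≤ 2 * A * Real.exp (-(j * α / 2)) :=
        le_trans (mul_le_mul_of_nonneg_right (pow_le_pow_left₀ hα.le hzα 3) (norm_nonneg _)) e3
      rw [div_mul_eq_mul_div, le_div_iff₀ (by positivity)]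
      linarith
    have hgeo : ∀ N : ℕ, 1 ≤ N → ∑ j ∈ Icc 2 N, Real.exp (-(j * α / 2)) ≤
        2 / α * (Real.exp (-(α / 2)) - Real.exp (-(N * α / 2))) := by
      intro N hN
      induction N, hN using Nat.le_induction with
      | base => simp
      | succ N hN ih =>
        rw [← insert_Icc_right_eq_Icc_add_one (by omega), sum_insert (by simp)]
        have e1 : Real.exp (-(N * α / 2)) = Real.exp (-(((N + 1 : ℕ) : ℝ) * α / 2)) * Real.exp (α / 2) := by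
          rw [← Real.exp_add]
          congr 1
          push_cast
          ring
        have e2' : α / 2 + 1 ≤ Real.exp (α / 2) := Real.add_one_le_exp _
        have e3 : 0 < Real.exp (-(((N + 1 : ℕ) : ℝ) * α / 2)) := Real.exp_pos _
        have e4 : Real.exp (-(((N + 1 : ℕ) : ℝ) * α / 2)) ≤
            2 / α * (Real.exp (-(N * α / 2)) - Real.exp (-(((N + 1 : ℕ) : ℝ) * α / 2))) := by
          rw [e1, div_mul_eq_mul_div, le_div_iff₀ hα]
          nlinarith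
        calc _ ≤ 2 / α * (Real.exp (-(N * α / 2)) - Real.exp (-(((N + 1 : ℕ) : ℝ) * α / 2))) +
              2 / α * (Real.exp (-(α / 2)) - Real.exp (-(N * α / 2))) := add_le_add e4 ih
          _ = _ := by ring
    have hgeo2 : ∑ j ∈ Icc 2 n, Real.exp (-(j * α / 2)) ≤ 2 / α := by
      refine (hgeo n (by omega)).trans ?_
      have e1 : Real.exp (-(α / 2)) ≤ 1 := Real.exp_le_one_iff.2 (by linarith)
      have e2' : 0 < Real.exp (-(n * α / 2)) := Real.exp_pos _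
      calc _ ≤ 2 / α * 1 := mul_le_mul_of_nonneg_left (by linarith) (by positivity)
        _ = 2 / α := mul_one _
    unfold LD3
    calc _ ≤ ∑ j ∈ Icc 2 n, ‖((n + j : ℕ) : ℂ) ^ 3 * e2 (((n + j : ℕ) : ℂ) * z) -
          (j : ℂ) ^ 3 * e2 ((j : ℂ) * z)‖ := norm_sum_le _ _
      _ ≤ ∑ j ∈ Icc 2 n, 2 * A / α ^ 3 * Real.exp (-(j * α / 2)) := sum_le_sum hj
      _ = 2 * A / α ^ 3 * ∑ j ∈ Icc 2 n, Real.exp (-(j * α / 2)) := by rw [mul_sum]
      _ ≤ 2 * A / α ^ 3 * (2 / α) := mul_le_mul_of_nonneg_left hgeo2 (by positivity)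
      _ = 4 * A * (1 / α) ^ 4 := by field_simp; ring
      _ ≤ (16 * B + 4 * A) * (1 / α) ^ 4 := by
          apply mul_le_mul_of_nonneg_right _ (by positivity)
          linarith

end V5helper4.QC
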